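import Mathlib

namespace Pool.Agent.Results.MP_a2bddf_an.Ruziewicz

open Set Filter Topology Real

lemma good_scale {δ : ℝ} (hδ : 0 < δ) {w : ℝ → ℝ} (hw : ∀ t ∈ Ioo 0 δ, 0 < w t)
    (hm : MonotoneOn w (Ioo 0 δ)) (h1 : Tendsto (fun t => w t / t) (𝓝[>] 0) atTop)
    {Q : ℝ → Prop} (hQ : ∀ᶠ t in 𝓝[>] 0, Q t) :
    ∃ h ∈ Ioo 0 δ, Q h ∧ ∀ t ∈ Ioo 0 δ, t ≤ h → w h / h ≤ 2 * (w t / t) := by
  obtain ⟨τ, hτ, hτQ⟩ := (mem_nhdsGT_iff_exists_Ioo_subset).1
    (hQ.and (Ioo_mem_nhdsGT hδ : ∀ᶠ t in 𝓝[>] 0, t ∈ Ioo 0 δ))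
  obtain ⟨η, hη, hηQ⟩ := (mem_nhdsGT_iff_exists_Ioo_subset).1
    ((h1.eventually_ge_atTop 1).and (Ioo_mem_nhdsGT hτ : ∀ᶠ t in 𝓝[>] 0, t ∈ Ioo 0 τ))
  have hτ : 0 < τ := hτ
  have hη : 0 < η := hη
  have hη2 : η / 2 ∈ Ioo 0 η := ⟨by linarith, by linarith⟩
  have hη3 := (hτQ (hηQ hη2).2).2
  set c := min 1 (w (η / 2) / τ) with hc
  have hc0 : 0 < c := lt_min one_pos (div_pos (hw _ hη3) hτ)
  have hlow : ∀ y ∈ (fun t => w t / t) '' Ioo 0 τ, c ≤ y := by
    rintro _ ⟨t, ht, rfl⟩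
    rcases lt_or_ge t η with h | h
    · exact (min_le_left _ _).trans (hηQ ⟨ht.1, h⟩).1
    · refine (min_le_right _ _).trans ?_
      have h2 := (hτQ ht).2
      have := hm hη3 h2 (by linarith)
      exact div_le_div₀ (hw _ h2).le this ht.1 ht.2.le
  have hne : ((fun t => w t / t) '' Ioo 0 τ).Nonempty := ⟨_, η / 2, (hηQ hη2).2, rfl⟩
  have hm0 : c ≤ sInf ((fun t => w t / t) '' Ioo 0 τ) := le_csInf hne hlow
  obtain ⟨_, ⟨h, hh, rfl⟩, hlt⟩ := exists_lt_of_csInf_lt hne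
    (show sInf ((fun t => w t / t) '' Ioo 0 τ) < 2 * sInf ((fun t => w t / t) '' Ioo 0 τ) by
      linarith)
  refine ⟨h, (hτQ hh).2, (hτQ hh).1, fun t ht hth => ?_⟩
  have : sInf ((fun t => w t / t) '' Ioo 0 τ) ≤ w t / t :=
    csInf_le ⟨c, hlow⟩ ⟨t, ⟨ht.1, lt_of_le_of_lt hth hh.2⟩, rfl⟩
  simp only at hlt
  linarith

lemma jump (y : ℝ) : ∃ s : ℝ, s ≠ 0 ∧ |s| ≤ 1 ∧ 1 ≤ |cos (π * (y + s)) - cos (π * y)| := by
  have key : ∀ c : ℝ, ∃ s : ℝ, |s| ≤ 1 ∧ cos (π * (y + s)) = cos (π * c) := by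
    intro c
    refine ⟨c + 2 * round ((y - c) / 2) - y, ?_, ?_⟩
    · have := abs_sub_round ((y - c) / 2)
      rw [abs_le] at this ⊢
      constructor <;> linarith [this.1, this.2]
    · rw [← cos_add_int_mul_two_pi (π * c) (round ((y - c) / 2))]
      congr 1; ring
  rcases le_total 0 (cos (π * y)) with h | h
  · obtain ⟨s, h1, h2⟩ := key 1
    rw [mul_one, cos_pi] at h2
    refine ⟨s, ?_, h1, ?_⟩
    · rintro rfl; rw [add_zero] at h2; linarith
    · rw [h2, le_abs]; right; linarith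
  · obtain ⟨s, h1, h2⟩ := key 0
    rw [mul_zero, cos_zero] at h2
    refine ⟨s, ?_, h1, ?_⟩
    · rintro rfl; rw [add_zero] at h2; linarith
    · rw [h2, le_abs]; left; linarith

theorem result (δ : ℝ) (hδ : 0 < δ) (w φ : ℝ → ℝ)
    (hw : ∀ t ∈ Ioo 0 δ, 0 < w t) (hφ : ∀ t ∈ Ioo 0 δ, 0 < φ t)
    (hwm : MonotoneOn w (Ioo 0 δ)) (hφm : MonotoneOn φ (Ioo 0 δ))
    (hw0 : Tendsto w (𝓝[>] 0) (𝓝 0)) (_hφ0 : Tendsto φ (𝓝[>] 0) (𝓝 0))
    (h1 : Tendsto (fun t => w t / t) (𝓝[>] 0) atTop)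
    (h2 : Tendsto (fun t => w t / φ t) (𝓝[>] 0) atTop) :
    ∃ f : ℝ → ℝ, (∀ x h, 0 < |h| → |h| < δ → |f (x + h) - f x| < w |h|) ∧
      ∀ x M : ℝ, ∃ᶠ h in 𝓝[≠] 0, M < |(f (x + h) - f x) / φ (|h|)| := by
  let P : ℕ → ℝ → Prop := fun k h => h ∈ Ioo 0 δ ∧ (h < 1 / ((k : ℝ) + 1) ∧
    32 * 2 ^ k * k ≤ w h / φ h) ∧ ∀ t ∈ Ioo 0 δ, t ≤ h → w h / h ≤ 2 * (w t / t)
  have ev : ∀ k : ℕ, ∀ᶠ h in 𝓝[>] (0 : ℝ), h < 1 / ((k : ℝ) + 1) ∧ 32 * 2 ^ k * k ≤ w h / φ h := by
    intro k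
    refine Eventually.and ?_ (h2.eventually_ge_atTop _)
    filter_upwards [Ioo_mem_nhdsGT (show (0 : ℝ) < 1 / ((k : ℝ) + 1) by positivity)] with t ht
    exact ht.2
  have step : ∀ (k : ℕ) (h : ℝ), P k h → ∃ h', P (k + 1) h' ∧
      (w h' ≤ w h / 8 ∧ 32 * (w h / h) ≤ w h' / h') := by
    intro k h hP
    have e1 : ∀ᶠ t in 𝓝[>] (0 : ℝ), w t ≤ w h / 8 :=
      hw0.eventually_le_const (by have := hw h hP.1; positivity)
    obtain ⟨h', a1, a2, a3⟩ := good_scale hδ hw hwm h1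
      ((ev (k + 1)).and (e1.and (h1.eventually_ge_atTop (32 * (w h / h)))))
    exact ⟨h', ⟨a1, a2.1, a3⟩, a2.2⟩
  obtain ⟨h0, a1, a2, a3⟩ := good_scale hδ hw hwm h1 (ev 0)
  obtain ⟨H, hH, hR⟩ : ∃ H : ℕ → ℝ, (∀ k, P k (H k)) ∧ ∀ k,
      (w (H (k + 1)) ≤ w (H k) / 8 ∧ 32 * (w (H k) / H k) ≤ w (H (k + 1)) / H (k + 1)) := by
    choose! nx hnx using step
    let H : ℕ → ℝ := fun k => Nat.rec h0 nx k
    have hH : ∀ k, P k (H k) := by
      intro k
      induction k with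
      | zero => exact ⟨a1, a2, a3⟩
      | succ k ih => exact (hnx k _ ih).1
    exact ⟨H, hH, fun k => (hnx k _ (hH k)).2⟩
  have Hpos : ∀ k, 0 < H k := fun k => (hH k).1.1
  have wpos : ∀ k, 0 < w (H k) := fun k => hw _ (hH k).1
  let a : ℕ → ℝ := fun k => (1 / 2) ^ k / 32 * w (H k)
  have apos : ∀ k, 0 < a k := fun k => by have := wpos k; positivity
  have adec : ∀ k j, a (j + k) ≤ a k * (1 / 16) ^ j := by
    intro k j
    induction j with
    | zero => simp
    | succ j ih =>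
      have h3 := (hR (j + k)).1
      have : a (j + 1 + k) ≤ a (j + k) / 16 := by
        simp only [a, show j + 1 + k = j + k + 1 by ring, pow_succ]
        have : (0 : ℝ) < (1 / 2) ^ (j + k) := by positivity
        nlinarith
      rw [pow_succ]; linarith
  have binc : ∀ k, ∑ j ∈ Finset.range k, a j / H j ≤ a k / H k / 15 := by
    intro k
    induction k with
    | zero => have := apos 0; have := Hpos 0; simp only [Finset.range_zero, Finset.sum_empty]; positivity
    | succ k ih =>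
      have h3 := (hR k).2
      have : 16 * (a k / H k) ≤ a (k + 1) / H (k + 1) := by
        simp only [a, pow_succ, mul_div_assoc]
        have : (0 : ℝ) < (1 / 2) ^ k := by positivity
        nlinarith
      rw [Finset.sum_range_succ]; linarith
  have asum : Summable a := by
    refine Summable.of_nonneg_of_le (fun k => (apos k).le) (fun k => adec 0 k) ?_
    exact (summable_geometric_of_lt_one (by norm_num) (by norm_num)).mul_left _
  let g : ℝ → ℕ → ℝ := fun x k => a k * cos (π * (x / H k))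
  have gsum : ∀ x, Summable (g x) := fun x => asum.of_norm_bounded fun k => by
    rw [Real.norm_eq_abs, abs_mul, abs_of_pos (apos k)]
    exact mul_le_of_le_one_right (apos k).le (abs_cos_le_one _)
  have b1 : ∀ x h k, |g (x + h) k - g x k| ≤ 2 * a k := by
    intro x h k
    simp only [g]
    rw [← mul_sub, abs_mul, abs_of_pos (apos k), mul_comm]
    refine mul_le_mul_of_nonneg_right ?_ (apos k).le
    have := abs_sub (cos (π * ((x + h) / H k))) (cos (π * (x / H k)))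
    linarith [abs_cos_le_one (π * ((x + h) / H k)), abs_cos_le_one (π * (x / H k))]
  have b2 : ∀ x h k, |g (x + h) k - g x k| ≤ 4 * |h| * (a k / H k) := by
    intro x h k
    simp only [g]
    rw [← mul_sub, abs_mul, abs_of_pos (apos k)]
    have h3 := abs_cos_sub_cos_le (π * ((x + h) / H k)) (π * (x / H k))
    have e : π * ((x + h) / H k) - π * (x / H k) = π * (h / H k) := by ring
    rw [e, abs_mul, abs_div, abs_of_pos pi_pos, abs_of_pos (Hpos k)] at h3
    have h4 : π * (|h| / H k) ≤ 4 * (|h| / H k) :=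
      mul_le_mul_of_nonneg_right pi_le_four (div_nonneg (abs_nonneg _) (Hpos k).le)
    calc _ ≤ a k * (4 * (|h| / H k)) := mul_le_mul_of_nonneg_left (h3.trans h4) (apos k).le
      _ = _ := by ring
  refine ⟨fun x => ∑' k, g x k, ?_, ?_⟩
  · intro x h p1 p2
    have wp := hw _ ⟨p1, p2⟩
    rw [← (gsum _).tsum_sub (gsum _)]
    have hs : HasSum (fun k : ℕ => w |h| / 4 * (1 / 2 : ℝ) ^ k) (w |h| / 4 * 2) :=
      hasSum_geometric_two.mul_left _
    rw [← Real.norm_eq_abs]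
    refine lt_of_le_of_lt (tsum_of_norm_bounded hs fun k => ?_) (by linarith)
    rw [Real.norm_eq_abs]
    have hp : (0 : ℝ) < (1 / 2) ^ k := by positivity
    rcases le_total |h| (H k) with c | c
    · have c1 := (hH k).2.2 _ ⟨p1, p2⟩ c
      have c2 : |h| * (w (H k) / H k) ≤ 2 * w |h| := by
        calc _ ≤ |h| * (2 * (w |h| / |h|)) := mul_le_mul_of_nonneg_left c1 p1.le
          _ = _ := by field_simp
      refine (b2 x h k).trans ?_
      simp only [a, mul_div_assoc]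
      nlinarith
    · have c1 := hwm (hH k).1 ⟨p1, p2⟩ c
      refine (b1 x h k).trans ?_
      simp only [a]
      nlinarith
  · intro x M
    rw [frequently_iff]
    intro U hU
    obtain ⟨ε, hε, hεU⟩ := Metric.mem_nhdsWithin_iff.1 hU
    obtain ⟨k, hk⟩ := exists_nat_gt (max (2 * M) (1 / ε))
    have k1 : 2 * M < k := lt_of_le_of_lt (le_max_left _ _) hk
    have k2 : 1 / ε < k := lt_of_le_of_lt (le_max_right _ _) hk
    obtain ⟨s, s0, s1, s2⟩ := jump (x / H k)
    have hk0 := Hpos k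
    have habs : |s * H k| ≤ H k := by
      rw [abs_mul, abs_of_pos hk0]; exact mul_le_of_le_one_left hk0.le s1
    have hne : s * H k ≠ 0 := mul_ne_zero s0 hk0.ne'
    have hin : |s * H k| ∈ Ioo 0 δ := ⟨abs_pos.2 hne, lt_of_le_of_lt habs (hH k).1.2⟩
    refine ⟨s * H k, hεU ⟨?_, hne⟩, ?_⟩
    · rw [Metric.mem_ball, Real.dist_eq, sub_zero]
      refine lt_of_le_of_lt habs ((hH k).2.1.1.trans ?_)
      rw [div_lt_iff₀ (by positivity)]
      rw [div_lt_iff₀ hε] at k2
      nlinarith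
    · set h := s * H k with hh
      have hd : Summable fun j => g (x + h) j - g x j := (gsum _).sub (gsum _)
      have e := hd.sum_add_tsum_nat_add (k + 1)
      have t1 : |∑ j ∈ Finset.range k, (g (x + h) j - g x j)| ≤ 4 * a k / 15 := by
        refine (Finset.abs_sum_le_sum_abs _ _).trans
          ((Finset.sum_le_sum fun j _ => b2 x h j).trans ?_)
        rw [← Finset.mul_sum]
        calc _ ≤ 4 * H k * (a k / H k / 15) :=
              mul_le_mul (by linarith) (binc k) (Finset.sum_nonneg fun j _ =>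
                (div_pos (apos j) (Hpos j)).le) (by positivity)
          _ = _ := by field_simp
      have t2 : |∑' j, (g (x + h) (j + (k + 1)) - g x (j + (k + 1)))| ≤
          a k / 8 * (1 - 1 / 16)⁻¹ := by
        have hs : HasSum (fun j : ℕ => a k / 8 * (1 / 16 : ℝ) ^ j) (a k / 8 * (1 - 1 / 16)⁻¹) :=
          (hasSum_geometric_of_lt_one (by norm_num) (by norm_num)).mul_left _
        rw [← Real.norm_eq_abs]
        refine tsum_of_norm_bounded hs fun j => (b1 x h _).trans ?_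
        have := adec k (j + 1)
        rw [show j + 1 + k = j + (k + 1) by ring, pow_succ] at this
        linarith
      have t3 : a k ≤ |g (x + h) k - g x k| := by
        simp only [g]
        rw [← mul_sub, abs_mul, abs_of_pos (apos k)]
        have : (x + h) / H k = x / H k + s := by rw [hh]; field_simp
        rw [this]
        exact le_mul_of_one_le_right (apos k).le s2
      have t4 : a k / 2 ≤ |∑' j, g (x + h) j - ∑' j, g x j| := by
        rw [← (gsum _).tsum_sub (gsum _), ← e, Finset.sum_range_succ]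
        have := apos k
        rw [abs_le] at t1 t2
        rw [le_abs] at t3 ⊢
        rcases t3 with t3 | t3
        · left; linarith [t1.1, t2.1]
        · right; linarith [t1.2, t2.2]
      have φ1 := hφ _ hin
      have φ2 := hφm hin (hH k).1 habs
      have φ3 := (hH k).2.1.2
      rw [le_div_iff₀ (hφ _ (hH k).1)] at φ3
      have φ4 : (k : ℝ) * φ (H k) ≤ a k := by
        simp only [a]
        have : ((1 : ℝ) / 2) ^ k * 2 ^ k = 1 := by rw [← mul_pow]; norm_num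
        calc (k : ℝ) * φ (H k) = ((1 : ℝ) / 2) ^ k / 32 * (32 * 2 ^ k * k * φ (H k)) := by
              linear_combination (-(k : ℝ) * φ (H k)) * this
          _ ≤ _ := mul_le_mul_of_nonneg_left φ3 (by positivity)
      simp only
      rw [abs_div, abs_of_pos φ1, lt_div_iff₀ φ1]
      have : (0 : ℝ) ≤ k := by positivity
      nlinarith

end Pool.Agent.Results.MP_a2bddf_an.Ruziewicz
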